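import Pool.Agent.Helper52.MA.Defs2

/-!
# Names of ordinals
-/

set_option autoImplicit false
set_option linter.unusedSectionVars false

namespace Pool.Agent.Helper52.MA

open Set Pool.Agent.Helper33.HM Pool.Agent.Helper33.HMG Pool.Agent.Helper32.HB

universe u

variable {P : Type u} [Preorder P] [OrderTop P] {Ω : Type} [LinearOrder Ω] [WellFoundedLT Ω]

theorem on_eq (x : Ω) : (on x : Nm P) =
    .mk (ULift.{u} {y : Ω // y < x}) (fun y => on y.down.1) (fun _ => ⊤) := by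
  unfold on
  rw [WellFounded.fix_eq]

theorem onN_fmem_mk {ι : Type u} {f : ι → Nm P} {c : ι → P} {σ : Nm P} {p : P}
    (h : fmem σ (.mk ι f c) p) :
    ∀ q, q ≤ p → ∃ r, r ≤ q ∧ ∃ i, r ≤ c i ∧ feq σ (f i) r := h

theorem onN_mk_fmem {ι : Type u} {f : ι → Nm P} {c : ι → P} {p : P} (i : ι) (h : p ≤ c i) :
    fmem (f i) (.mk ι f c) p :=
  fmem_child (.mk ι f c) i h

theorem fmem_on_dense {σ : Nm P} {x : Ω} {p : P} (h : fmem σ (on x) p) :
    ∀ q, q ≤ p → ∃ r, r ≤ q ∧ ∃ y, y < x ∧ feq σ (on y) r := by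
  intro q hq
  rw [on_eq] at h
  obtain ⟨r, hr, i, -, hi⟩ := onN_fmem_mk h q hq
  exact ⟨r, hr, i.down.1, i.down.2, hi⟩

theorem fmem_on {x y : Ω} (h : x < y) (p : P) : fmem (on x : Nm P) (on y) p := by
  rw [on_eq y]
  exact onN_mk_fmem (f := fun z : ULift.{u} {z : Ω // z < y} => (on z.down.1 : Nm P))
    (c := fun _ => ⊤) ⟨⟨x, h⟩⟩ le_top

theorem onN_not_feq (x : Ω) : ∀ (y : Ω) (p : P), x < y → ¬ feq (on y : Nm P) (on x) p := by
  induction x using WellFoundedLT.induction with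
  | ind x ih =>
    intro y p hxy h
    have h1 : fmem (on x : Nm P) (on x) p := fmem_congr_right h (fmem_on hxy p)
    obtain ⟨r, -, z, hz, hr⟩ := fmem_on_dense h1 p le_rfl
    exact ih z hz x r hz hr

theorem eq_of_feq_on {x y : Ω} {p : P} (h : feq (on x : Nm P) (on y) p) : x = y := by
  rcases lt_trichotomy x y with h1 | h1 | h1
  · exact absurd (feq_symm h) (onN_not_feq x y p h1)
  · exact h1
  · exact absurd h (onN_not_feq y x p h1)

theorem lt_of_fmem_on {x y : Ω} {p : P} (h : fmem (on x : Nm P) (on y) p) : x < y := by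
  obtain ⟨r, -, z, hz, hr⟩ := fmem_on_dense h p le_rfl
  rw [eq_of_feq_on hr]
  exact hz

theorem on_injective : Function.Injective (on : Ω → Nm P) := by
  intro x y h
  have h1 : feq (on x : Nm P) (on x) ⊤ := feq_refl _ _
  rw [h] at h1
  have h2 : feq (on x : Nm P) (on y) ⊤ := by
    rw [h]
    exact h1
  exact eq_of_feq_on h2

theorem fmem_wN (x : Ω) (p : P) : fmem (on x : Nm P) (wN Ω) p :=
  onN_mk_fmem (f := fun z : ULift.{u} Ω => (on z.down : Nm P)) (c := fun _ => ⊤) ⟨x⟩ le_top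

theorem fmem_wN_dense {σ : Nm P} {p : P} (h : fmem σ (wN Ω) p) :
    ∀ q, q ≤ p → ∃ r, r ≤ q ∧ ∃ y : Ω, feq σ (on y) r := by
  intro q hq
  obtain ⟨r, hr, i, -, hi⟩ := onN_fmem_mk h q hq
  exact ⟨r, hr, i.down, hi⟩

theorem fmem_setN_dense {A : Ω → RO P} {σ : Nm P} {p : P} (h : fmem σ (setN A) p) :
    ∀ q, q ≤ p → ∃ r, r ≤ q ∧ ∃ y : Ω, feq σ (on y) r ∧ r ∈ A y := by
  intro q hq
  obtain ⟨r, hr, i, hri, hi⟩ := onN_fmem_mk h q hq
  exact ⟨r, hr, i.1.1, hi, RO.mem_lower hri i.2⟩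

theorem st_setN (A : Ω → RO P) (x : Ω) : st (setN A) x = A x := by
  apply RO.ext'
  intro p
  constructor
  · intro h
    apply RO.mem_reg
    intro q hq
    have h' : fmem (on x) (setN A) p := h
    obtain ⟨r, hr, y, hy, hy'⟩ := fmem_setN_dense h' q hq
    rw [← eq_of_feq_on hy] at hy'
    exact ⟨r, hr, hy'⟩
  · intro h
    exact onN_mk_fmem (f := fun z : {z : Ω × P // z.2 ∈ A z.1} => (on z.1.1 : Nm P))
      (c := fun z => z.1.2) ⟨(x, p), h⟩ le_rfl

end Pool.Agent.Helper52.MA
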